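import Pool.Agent.E8helper53.AH.Hdg2

/-!
# Operations on absolutely Hodge classes
-/

open CategoryTheory AlgebraicGeometry TensorProduct

set_option linter.unusedSectionVars false

universe u

namespace Pool.Agent.E8helper53.AH

open Module
open Pool.Agent.H914 Pool.Agent.H914.VarClass Pool.Agent.H914.VarClass.Obj
  Pool.Agent.H914.WeilCohomology Pool.Agent.H281R3.HT

variable {k : Type u} [Field k] {𝒱 : VarClass k} {ops : CycleOps 𝒱} {T T' : HodgeTheory ops}

section hodge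

variable {X Y : 𝒱.Obj}

theorem hodge_zero {j : ℕ} : (0 : T.W.H X) ∈ hodge T X j :=
  hodge_iff.2 ⟨Submodule.zero_mem _, fun D _ => map_zero _⟩

theorem hodge_add {j : ℕ} {a b : T.W.H X} (ha : a ∈ hodge T X j) (hb : b ∈ hodge T X j) :
    a + b ∈ hodge T X j := by
  rw [hodge_iff] at ha hb ⊢
  exact ⟨Submodule.add_mem _ ha.1 hb.1, fun D hD => by
    rw [map_add, ha.2 D hD, hb.2 D hD, add_zero]⟩

theorem hodge_smul {j : ℕ} (r : T.W.K) {a : T.W.H X} (ha : a ∈ hodge T X j) :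
    r • a ∈ hodge T X j := by
  rw [hodge_iff] at ha ⊢
  exact ⟨Submodule.smul_mem _ _ ha.1, fun D hD => by rw [map_smul, ha.2 D hD, smul_zero]⟩

theorem hodge_mul {i j : ℕ} {a b : T.W.H X} (ha : a ∈ hodge T X i) (hb : b ∈ hodge T X j) :
    a * b ∈ hodge T X (i + j) := by
  rw [hodge_iff] at ha hb ⊢
  refine ⟨?_, fun D hD => ?_⟩
  · rw [mul_add]
    exact T.W.mul_mem ha.1 hb.1
  · rw [D.mul, ha.2 D hD, hb.2 D hD, zero_mul, mul_zero, add_zero]

theorem hodge_map (f : X ⟶ Y) {j : ℕ} {a : T.W.H Y} (ha : a ∈ hodge T Y j) :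
    T.W.map f a ∈ hodge T X j := by
  rw [hodge_iff] at ha ⊢
  exact ⟨T.W.map_mem f ha.1, fun D hD => by rw [D.map, ha.2 D hD, map_zero]⟩

theorem hodge_one : (1 : T.W.H X) ∈ hodge T X 0 :=
  hodge_iff.2 ⟨T.W.one_mem X, fun D _ => D.one X⟩

theorem hodge_diag : T.W.push (diag Y) 1 ∈ hodge T (Y.prod Y) Y.dim := by
  refine hodge_iff.2 ⟨?_, fun D _ => by rw [D.push, D.one, map_zero]⟩
  have h1 := T.W.push_mem (diag Y) (T.W.one_mem Y)
  have h2 : ((0 : ℕ) : ℤ) + 2 * (((Y.prod Y).dim : ℤ) - Y.dim) = ((2 * Y.dim : ℕ) : ℤ) := by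
    rw [dim_prod]
    push_cast
    ring
  rwa [h2, grZ_natCast] at h1

end hodge

section cmp

variable (C : Comparison T T') {X Y : 𝒱.Obj}

/-- the class with extended coefficients -/
noncomputable def m1 (C : Comparison T T') (a : T.W.H X) : C.L ⊗[T.W.K] T.W.H X :=
  (1 : C.L) ⊗ₜ[T.W.K] a

/-- the class with extended coefficients -/
noncomputable def m2 (C : Comparison T T') (a : T'.W.H X) : C.L ⊗[T'.W.K] T'.W.H X :=
  (1 : C.L) ⊗ₜ[T'.W.K] a

theorem m1_add (a b : T.W.H X) : m1 C (a + b) = m1 C a + m1 C b := tmul_add _ _ _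

theorem m2_add (a b : T'.W.H X) : m2 C (a + b) = m2 C a + m2 C b := tmul_add _ _ _

theorem m1_mul (a b : T.W.H X) : m1 C (a * b) = m1 C a * m1 C b := by
  rw [m1, m1, m1, Algebra.TensorProduct.tmul_mul_tmul, one_mul]

theorem m2_mul (a b : T'.W.H X) : m2 C (a * b) = m2 C a * m2 C b := by
  rw [m2, m2, m2, Algebra.TensorProduct.tmul_mul_tmul, one_mul]

theorem m1_smul (r : T.W.K) (a : T.W.H X) : m1 C (r • a) = algebraMap T.W.K C.L r • m1 C a := by
  rw [m1, m1, tmul_smul, algebraMap_smul]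

theorem m2_smul (r : T'.W.K) (a : T'.W.H X) :
    m2 C (r • a) = algebraMap T'.W.K C.L r • m2 C a := by
  rw [m2, m2, tmul_smul, algebraMap_smul]

theorem corr_iff {j : ℕ} {x : T.W.H X} {x' : T'.W.H X} :
    Corresponds C.c (C.e X) j x x' ↔ C.e X (m1 C x) = C.c ^ j • m2 C x' := Iff.rfl

theorem e_nat (f : X ⟶ Y) (b : T.W.H Y) : C.e X (m1 C (T.W.map f b)) =
    (T'.W.map f).toLinearMap.baseChange C.L (C.e Y (m1 C b)) := C.nat X Y f b

/-- the trace with extended coefficients -/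
noncomputable def tL (C : Comparison T T') (X : 𝒱.Obj) : C.L ⊗[T'.W.K] T'.W.H X →ₗ[C.L] C.L :=
  formBase C.L (T'.W.tr X)

theorem e_tr (a : T.W.H X) : tL C X (C.e X (m1 C a)) =
    C.c ^ X.dim * algebraMap T.W.K C.L (T.W.tr X a) := by
  have h1 := (C.cmp X).tr a
  have h2 := congrArg (TensorProduct.AlgebraTensorModule.rid T'.W.K C.L C.L) h1
  rw [TensorProduct.AlgebraTensorModule.rid_tmul, one_smul] at h2
  exact h2

theorem tL_nondeg (x : C.L ⊗[T'.W.K] T'.W.H X) (h : ∀ y, tL C X (x * y) = 0) : x = 0 :=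
  (IsPoincareAlgebra.baseChange (L := C.L) (T'.W.isPoincareAlgebra X)).nondeg x h

theorem tL_push (f : X ⟶ Y) (x : C.L ⊗[T'.W.K] T'.W.H X) (y : C.L ⊗[T'.W.K] T'.W.H Y) :
    tL C Y ((T'.W.push f).baseChange C.L x * y) = tL C X (x * mapBase C.L (T'.W.map f) y) :=
  (IsPullPush.baseChange (L := C.L) (T'.W.isFunctorial.isPullPush f)).tr_push x y

/-- the images of the rational classes span -/
theorem e_span {p : C.L ⊗[T'.W.K] T'.W.H X → Prop} (h0 : p 0)
    (hadd : ∀ x y, p x → p y → p (x + y)) (h : ∀ (l : C.L) (a : T.W.H X), p (l • C.e X (m1 C a)))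
    (x : C.L ⊗[T'.W.K] T'.W.H X) : p x := by
  obtain ⟨y, rfl⟩ := (C.e X).surjective x
  refine tmul_induction (P := fun y => p (C.e X y)) ?_ ?_ ?_ y
  · rw [map_zero]
    exact h0
  · intro x y hx hy
    rw [map_add]
    exact hadd _ _ hx hy
  · intro l a
    have h1 : l ⊗ₜ[T.W.K] a = l • m1 C a := by
      rw [m1, TensorProduct.smul_tmul', smul_eq_mul, mul_one]
    rw [h1, (C.cmp X).semi]
    exact h _ _

/-- **The class of the diagonal corresponds to the class of the diagonal.** -/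
theorem corr_diag : Corresponds C.c (C.e (Y.prod Y)) Y.dim (T.W.push (diag Y) 1)
    (T'.W.push (diag Y) 1) := by
  rw [corr_iff, ← sub_eq_zero]
  refine tL_nondeg C _ fun y => ?_
  refine e_span C (p := fun y => tL C _ ((C.e _ (m1 C (T.W.push (diag Y) 1)) -
    C.c ^ Y.dim • m2 C (T'.W.push (diag Y) 1)) * y) = 0) ?_ ?_ ?_ y
  · rw [mul_zero, map_zero]
  · intro x y hx hy
    rw [mul_add, map_add, hx, hy, add_zero]
  · intro l b
    rw [mul_smul_comm, map_smul, sub_mul, map_sub, ← map_mul, ← m1_mul, e_tr, T.W.tr_push,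
      one_mul, smul_mul_assoc, map_smul]
    have h1 : m2 C (T'.W.push (diag Y) 1) = (T'.W.push (diag Y)).baseChange C.L (m2 C 1) := by
      rw [m2, m2, LinearMap.baseChange_tmul]
    have h2 : mapBase C.L (T'.W.map (diag Y)) (C.e _ (m1 C b)) =
        C.e Y (m1 C (T.W.map (diag Y) b)) := by
      rw [e_nat]
      refine tmul_induction (P := fun x => mapBase C.L (T'.W.map (diag Y)) x =
        (T'.W.map (diag Y)).toLinearMap.baseChange C.L x) ?_ ?_ ?_ _
      · rw [map_zero, map_zero]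
      · intro x y hx hy
        rw [map_add, map_add, hx, hy]
      · intro l a
        rw [Algebra.TensorProduct.map_tmul, LinearMap.baseChange_tmul]
        rfl
    have h3 : m2 C (1 : T'.W.H Y) = 1 := rfl
    rw [h1, tL_push, h2, h3, one_mul, e_tr, smul_eq_mul, smul_eq_mul, dim_prod, pow_add, mul_assoc,
      sub_self, mul_zero]

theorem corr_one : Corresponds C.c (C.e X) 0 (1 : T.W.H X) (1 : T'.W.H X) := by
  rw [corr_iff, pow_zero, one_smul]
  exact map_one (C.e X)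

theorem corr_add {j : ℕ} {x y : T.W.H X} {x' y' : T'.W.H X}
    (hx : Corresponds C.c (C.e X) j x x') (hy : Corresponds C.c (C.e X) j y y') :
    Corresponds C.c (C.e X) j (x + y) (x' + y') := by
  rw [corr_iff] at hx hy ⊢
  rw [m1_add, map_add, hx, hy, m2_add, smul_add]

theorem corr_zero {j : ℕ} : Corresponds C.c (C.e X) j (0 : T.W.H X) (0 : T'.W.H X) := by
  rw [corr_iff, m1, m2, tmul_zero, tmul_zero, map_zero, smul_zero]

theorem corr_smul {j : ℕ} (q : ℚ) {x : T.W.H X} {x' : T'.W.H X}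
    (hx : Corresponds C.c (C.e X) j x x') :
    Corresponds C.c (C.e X) j ((q : T.W.K) • x) ((q : T'.W.K) • x') := by
  rw [corr_iff] at hx ⊢
  rw [m1_smul, (C.cmp X).semi, hx, m2_smul, map_ratCast, map_ratCast, map_ratCast, smul_comm]

theorem corr_mul {i j : ℕ} {x y : T.W.H X} {x' y' : T'.W.H X}
    (hx : Corresponds C.c (C.e X) i x x') (hy : Corresponds C.c (C.e X) j y y') :
    Corresponds C.c (C.e X) (i + j) (x * y) (x' * y') := by
  rw [corr_iff] at hx hy ⊢
  rw [m1_mul, map_mul, hx, hy, m2_mul, smul_mul_smul_comm, pow_add]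

theorem corr_map (f : X ⟶ Y) {j : ℕ} {x : T.W.H Y} {x' : T'.W.H Y}
    (hx : Corresponds C.c (C.e Y) j x x') :
    Corresponds C.c (C.e X) j (T.W.map f x) (T'.W.map f x') := by
  rw [corr_iff] at hx ⊢
  rw [e_nat, hx, map_smul, m2, LinearMap.baseChange_tmul]
  rfl

end cmp

section abs

variable {J : Type} {C : J → Comparison T T'} {X Y : 𝒱.Obj}

/-- The class is an absolutely Hodge class. -/
def AC (C : J → Comparison T T') (X : 𝒱.Obj) (j : ℕ) (x : T.W.H X) : Prop :=
  x ∈ hodge T X j ∧ IsAbs C X j x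

theorem AC.zero {j : ℕ} : AC C X j 0 :=
  ⟨hodge_zero, 0, hodge_zero, fun _ => corr_zero _⟩

theorem AC.add {j : ℕ} {x y : T.W.H X} (hx : AC C X j x) (hy : AC C X j y) : AC C X j (x + y) := by
  obtain ⟨hx, x', hx', hxx⟩ := hx
  obtain ⟨hy, y', hy', hyy⟩ := hy
  exact ⟨hodge_add hx hy, x' + y', hodge_add hx' hy', fun a => corr_add _ (hxx a) (hyy a)⟩

theorem AC.smul {j : ℕ} (r : T.W.K) {x : T.W.H X} (hx : AC C X j x) : AC C X j (r • x) := by
  obtain ⟨q, rfl⟩ := T.rat r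
  obtain ⟨hx, x', hx', hxx⟩ := hx
  exact ⟨hodge_smul _ hx, (q : T'.W.K) • x', hodge_smul _ hx', fun a => corr_smul _ q (hxx a)⟩

theorem AC.mul {i j : ℕ} {x y : T.W.H X} (hx : AC C X i x) (hy : AC C X j y) :
    AC C X (i + j) (x * y) := by
  obtain ⟨hx, x', hx', hxx⟩ := hx
  obtain ⟨hy, y', hy', hyy⟩ := hy
  exact ⟨hodge_mul hx hy, x' * y', hodge_mul hx' hy', fun a => corr_mul _ (hxx a) (hyy a)⟩

theorem AC.map (f : X ⟶ Y) {j : ℕ} {x : T.W.H Y} (hx : AC C Y j x) : AC C X j (T.W.map f x) := by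
  obtain ⟨hx, x', hx', hxx⟩ := hx
  exact ⟨hodge_map f hx, T'.W.map f x', hodge_map f hx', fun a => corr_map _ f (hxx a)⟩

theorem AC.one : AC C X 0 1 := ⟨hodge_one, 1, hodge_one, fun _ => corr_one _⟩

theorem AC.diag : AC C (Y.prod Y) Y.dim (T.W.push (diag Y) 1) :=
  ⟨hodge_diag, _, hodge_diag, fun _ => corr_diag _⟩

variable (C X) in
/-- The span of the absolutely Hodge classes. -/
def acs : Submodule T.W.K (T.W.H X) := Submodule.span T.W.K {x | ∃ j, AC C X j x}

theorem acs_ind {p : T.W.H X → Prop} (h : ∀ j x, AC C X j x → p x) (h0 : p 0)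
    (hadd : ∀ a b, p a → p b → p (a + b)) {x : T.W.H X} (hx : x ∈ acs C X) : p x := by
  have key : ∀ z, z ∈ acs C X → (p z ∧ ∀ c : T.W.K, p (c • z)) := by
    intro z hz
    induction hz using Submodule.span_induction with
    | mem x hx => obtain ⟨j, hj⟩ := hx; exact ⟨h j x hj, fun c => h j _ (hj.smul c)⟩
    | zero => exact ⟨h0, fun c => by rw [smul_zero]; exact h0⟩
    | add x y _ _ hx hy =>
      exact ⟨hadd x y hx.1 hy.1, fun c => by rw [smul_add]; exact hadd _ _ (hx.2 c) (hy.2 c)⟩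
    | smul c x _ hx => exact ⟨hx.2 c, fun d => by rw [smul_smul]; exact hx.2 _⟩
  exact (key x hx).1

theorem acs_mul {x y : T.W.H X} (hx : x ∈ acs C X) (hy : y ∈ acs C X) : x * y ∈ acs C X := by
  refine acs_ind (p := fun x => x * y ∈ acs C X) ?_ ?_ ?_ hx
  · intro i x hx
    refine acs_ind (p := fun y => x * y ∈ acs C X) ?_ ?_ ?_ hy
    · intro j y hy
      exact Submodule.subset_span ⟨_, hx.mul hy⟩
    · rw [mul_zero]
      exact Submodule.zero_mem _
    · intro a b ha hb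
      rw [mul_add]
      exact Submodule.add_mem _ ha hb
  · rw [zero_mul]
    exact Submodule.zero_mem _
  · intro a b ha hb
    rw [add_mul]
    exact Submodule.add_mem _ ha hb

theorem acs_proj {x : T.W.H X} (hx : x ∈ acs C X) (j : ℕ) :
    AC C X j (H914.proj (T.W.isInternal X) (2 * j) x) := by
  refine acs_ind (p := fun x => AC C X j (H914.proj (T.W.isInternal X) (2 * j) x)) ?_ ?_ ?_ hx
  · intro i x hx
    have h1 : x ∈ T.W.gr X (2 * i) := (hodge_iff.1 hx.1).1
    by_cases h : i = j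
    · subst h
      rw [proj_same _ h1]
      exact hx
    · rw [proj_ne _ h1 (by omega)]
      exact AC.zero
  · rw [map_zero]
    exact AC.zero
  · intro x y hx hy
    rw [map_add]
    exact hx.add hy

theorem acs_gr {x : T.W.H X} {j : ℕ} (hx : x ∈ acs C X) (hj : x ∈ T.W.gr X (2 * j)) :
    AC C X j x := by
  have h1 := acs_proj hx j
  rwa [proj_same _ hj] at h1

end abs

end Pool.Agent.E8helper53.AH
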