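import Pool.Agent.E8helper53.LP.Main

/-!
# Natural derivations of a cohomology theory and hyperplane sections
-/

open CategoryTheory AlgebraicGeometry Finset

set_option linter.unusedSectionVars false

universe u v w

namespace Pool.Agent.E8helper53.AH

open Pool.Agent.H914 Pool.Agent.H914.VarClass Pool.Agent.H914.VarClass.Obj
  Pool.Agent.H914.WeilCohomology Pool.Agent.H281R3.HT Pool.Agent.W552 Pool.Agent.TH125.Gal
open Pool.Agent.E8helper53.LP

variable {k : Type u} [Field k] {𝒱 : VarClass k} {ops : CycleOps 𝒱}

/-- A natural derivation of degree zero of a cohomology theory which is compatible with the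
orientations. -/
structure NatDer (W : WeilCohomology.{u, v} ops) where
  /-- the operators -/
  d : ∀ X : 𝒱.Obj, W.H X →ₗ[W.K] W.H X
  mul : ∀ (X : 𝒱.Obj) (a b : W.H X), d X (a * b) = d X a * b + a * d X b
  map : ∀ (X Y : 𝒱.Obj) (f : X ⟶ Y) (b : W.H Y), d X (W.map f b) = W.map f (d Y b)
  gr : ∀ (X : 𝒱.Obj) (i : ℕ), ∀ a ∈ W.gr X i, d X a ∈ W.gr X i
  tr : ∀ (X : 𝒱.Obj) (a : W.H X), W.tr X (d X a) = 0

namespace NatDer

variable {W : WeilCohomology.{u, v} ops} (D : NatDer W) {X Y : 𝒱.Obj}

theorem one (X : 𝒱.Obj) : D.d X 1 = 0 := by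
  have h := D.mul X 1 1
  rw [mul_one, mul_one, one_mul] at h
  exact (left_eq_add.1 h)

theorem bil_skew (a b : W.H X) : bil W X (D.d X a) b = -bil W X a (D.d X b) := by
  have h := D.tr X (a * b)
  rw [D.mul, map_add] at h
  exact eq_neg_of_add_eq_zero_left h

theorem push (f : X ⟶ Y) (a : W.H X) : D.d Y (W.push f a) = W.push f (D.d X a) := by
  apply W.tr_ext
  intro b
  have h1 := D.bil_skew (W.push f a) b
  have h2 := D.bil_skew a (W.map f b)
  rw [bil_apply, bil_apply, W.tr_push] at h1
  rw [bil_apply, bil_apply, D.map] at h2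
  rw [h1, W.tr_push, h2]

theorem proj (X : 𝒱.Obj) (j : ℕ) (a : W.H X) :
    D.d X (H914.proj (W.isInternal X) j a) = H914.proj (W.isInternal X) j (D.d X a) := by
  refine gr_induction (W.isInternal X) (p := fun a => D.d X (H914.proj (W.isInternal X) j a) =
    H914.proj (W.isInternal X) j (D.d X a)) ?_ ?_ a
  · intro l a ha
    by_cases h : l = j
    · subst h
      rw [proj_same _ ha, proj_same _ (D.gr _ _ _ ha)]
    · rw [proj_ne _ ha h, proj_ne _ (D.gr _ _ _ ha) h, map_zero]
  · intro a b ha hb
    rw [map_add, map_add, map_add, map_add, ha, hb]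

variable {i : Y ⟶ X}

theorem lef (m : ℕ) (a : W.H X) : D.d X ((LinearMap.mulLeft W.K (W.push i 1) ^ m) a) =
    (LinearMap.mulLeft W.K (W.push i 1) ^ m) (D.d X a) := by
  induction m generalizing a with
  | zero => rfl
  | succ m ih =>
    rw [pow_succ, Module.End.mul_apply, ih, Module.End.mul_apply, lef_eq, lef_eq, D.push, D.map]

theorem vanishing {v : W.H Y} (hv : v ∈ LP.vanishing W i) : D.d Y v ∈ LP.vanishing W i := by
  rw [mem_vanishing, ← D.push, mem_vanishing.1 hv, map_zero]

variable (h : IsHyperplaneSection W i)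

theorem DD {a : W.H X} (ha : a ∈ LP.DD W i) : D.d X a ∈ LP.DD W i := by
  rw [mem_DD]
  intro j
  rw [← D.proj]
  have h1 := mem_DD.1 ha j
  revert h1
  generalize H914.proj (W.isInternal X) j a = b
  intro h1
  rw [Dj] at h1 ⊢
  by_cases hj : j ≤ Y.dim
  · rw [if_pos hj] at h1 ⊢
    exact D.gr _ _ _ h1
  · rw [if_neg hj] at h1 ⊢
    by_cases hj' : j ≤ 2 * Y.dim
    · rw [if_pos hj'] at h1 ⊢
      obtain ⟨c, hc, rfl⟩ := h1
      rw [D.lef]
      exact ⟨_, D.gr _ _ _ hc, rfl⟩
    · rw [if_neg hj'] at h1 ⊢
      rw [(Submodule.mem_bot _).1 h1, map_zero]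
      exact Submodule.zero_mem _

/-- **The lift commutes with natural derivations.** -/
theorem lft (y : W.H Y) : LP.lft h (D.d Y y) = D.d X (LP.lft h y) := by
  refine lft_eq h (D.DD (lft_mem h y)) ?_
  rw [← D.map, ← map_sub]
  exact D.vanishing (lft_spec h y)

/-- the derivation of a monomial -/
theorem mono {n : ℕ} (π : Fin n → (Y ⟶ X)) (a : Fin n → W.H X) :
    D.d Y (TH125.Gal.mono π a) = ∑ p, TH125.Gal.mono π (Function.update a p (D.d X (a p))) := by
  induction n with
  | zero =>
    rw [Finset.univ_eq_empty, Finset.sum_empty, TH125.Gal.mono, List.ofFn_zero, List.prod_nil, D.one]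
  | succ n ih =>
    rw [mono_succ, D.mul, ih, D.map, Fin.sum_univ_succ, Finset.mul_sum]
    congr 1
    · rw [mono_succ, Function.update_self]
      rfl
    · refine Finset.sum_congr rfl fun p _ => ?_
      rw [mono_succ, Function.update_of_ne (Fin.succ_ne_zero p).symm]
      congr 2
      funext q
      by_cases hq : q = p
      · subst hq
        rw [Function.update_self, Function.update_self]
      · rw [Function.update_of_ne hq, Function.update_of_ne fun h => hq (Fin.succ_injective _ h)]

end NatDer

section ten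

variable {W : WeilCohomology.{u, v} ops} (D : NatDer W) {P Q : Polarized 𝒱} {n : ℕ}
  {Z Z' : 𝒱.Obj}

/-- the commutator of a derivation and an operator -/
noncomputable def cm (D : NatDer W) {X Y : 𝒱.Obj} (L : W.H X →ₗ[W.K] W.H Y) :
    W.H X →ₗ[W.K] W.H Y := D.d Y ∘ₗ L - L ∘ₗ D.d X

theorem cm_apply {X Y : 𝒱.Obj} (L : W.H X →ₗ[W.K] W.H Y) (a : W.H X) :
    cm D L a = D.d Y (L a) - L (D.d X a) := rfl

/-- **The derivation of a tensor product of operators.** -/
theorem ten_der (L : Fin (n + 1) → (W.H P.X →ₗ[W.K] W.H Q.X)) (M : W.H Z →ₗ[W.K] W.H Z')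
    (hM : ∀ z, D.d Z' (M z) = M (D.d Z z))
    (c : W.H ((nest ops n fun _ => P).X.prod Z)) :
    D.d _ (ten L M c) = ten L M (D.d _ c) +
      ∑ p, ten (Function.update L p (cm D (L p))) M c := by
  have h1 : D.d _ ∘ₗ ten L M = ten L M ∘ₗ D.d _ +
      ∑ p, ten (Function.update L p (cm D (L p))) M := by
    refine ten_ext fun a z => ?_
    rw [LinearMap.comp_apply, ten_mono, D.mul, D.map, D.map, D.mono, LinearMap.add_apply,
      LinearMap.comp_apply, D.mul, D.map, D.map, D.mono, LinearMap.sum_apply, map_add,
      ten_mono, hM, map_sum, map_sum, Finset.sum_mul, Finset.sum_mul, map_sum]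
    have h2 : ∀ p, W.map (fst _ Z') (TH125.Gal.mono (prj ops n fun _ => Q)
          (Function.update (fun p => L p (a p)) p (D.d Q.X (L p (a p))))) *
            W.map (snd _ Z') (M z) =
        ten L M (W.map (fst _ Z) (TH125.Gal.mono (prj ops n fun _ => P)
          (Function.update a p (D.d P.X (a p)))) * W.map (snd _ Z) z) +
        ten (Function.update L p (cm D (L p))) M (W.map (fst _ Z)
          (TH125.Gal.mono (prj ops n fun _ => P) a) * W.map (snd _ Z) z) := by
      intro p
      rw [ten_mono, ten_mono, ← add_mul, ← map_add]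
      congr 2
      have h3 : (fun q => L q (Function.update a p (D.d P.X (a p)) q)) =
          Function.update (fun q => L q (a q)) p (L p (D.d P.X (a p))) := by
        funext q
        by_cases hq : q = p
        · subst hq
          rw [Function.update_self, Function.update_self]
        · rw [Function.update_of_ne hq, Function.update_of_ne hq]
      have h4 : (fun q => Function.update L p (cm D (L p)) q (a q)) =
          Function.update (fun q => L q (a q)) p (cm D (L p) (a p)) := by
        funext q
        by_cases hq : q = p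
        · subst hq
          rw [Function.update_self, Function.update_self]
        · rw [Function.update_of_ne hq, Function.update_of_ne hq]
      rw [h3, h4]
      have h5 := (monoML (W := W) (prj ops n fun _ => Q)).map_update_add
        (fun q => L q (a q)) p (L p (D.d P.X (a p))) (cm D (L p) (a p))
      rw [cm_apply, add_sub_cancel] at h5
      rw [cm_apply]
      exact h5
    rw [Finset.sum_congr rfl fun p _ => h2 p, Finset.sum_add_distrib]
    abel
  exact (LinearMap.congr_fun h1 c).trans (by
    rw [LinearMap.add_apply, LinearMap.comp_apply, LinearMap.sum_apply])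

end ten

end Pool.Agent.E8helper53.AH
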