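import Pool.Agent.E8helper53.AH.Hf

/-!
# Tate classes which are killed by natural derivations on the powers of hyperplane sections
-/

open CategoryTheory AlgebraicGeometry Finset Function

set_option linter.unusedSectionVars false

universe u v w

namespace Pool.Agent.E8helper53.AH

open Pool.Agent.H914 Pool.Agent.H914.VarClass Pool.Agent.H914.VarClass.Obj
  Pool.Agent.H914.WeilCohomology Pool.Agent.H281R3.HT Pool.Agent.W552 Pool.Agent.TH125.Gal
open Pool.Agent.E8helper53.LP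

variable {k : Type u} [Field k] {𝒱 : VarClass k} {ops : CycleOps 𝒱}
  {W : WeilCohomology.{u, v} ops} {PX PY : Polarized 𝒱} {i : PY.X ⟶ PX.X}
  {Γ : Type w} [Group Γ] {χ : Γ →* W.Kˣ} {n : ℕ} {Z : 𝒱.Obj}
  {ρ : Γ →* (W.H PX.X ≃ₐ[W.K] W.H PX.X)} {ρ' : Γ →* (W.H PY.X ≃ₐ[W.K] W.H PY.X)}
  {τ : Γ →* (W.H Z ≃ₐ[W.K] W.H Z)}
  {υX : Γ →* (W.H ((nest ops n fun _ => PX).X.prod Z) ≃ₐ[W.K]
    W.H ((nest ops n fun _ => PX).X.prod Z))}
  {υY : Γ →* (W.H ((nest ops n fun _ => PY).X.prod Z) ≃ₐ[W.K]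
    W.H ((nest ops n fun _ => PY).X.prod Z))}

/-- The class is a Tate class and is killed by the derivations. -/
def TD (χ : Γ →* W.Kˣ) (𝔇 : Set (NatDer W)) {X : 𝒱.Obj} (υ : Γ →* (W.H X ≃ₐ[W.K] W.H X)) (j : ℕ)
    (c : W.H X) : Prop :=
  TC χ υ j c ∧ ∀ D ∈ 𝔇, D.d X c = 0

/-- The algebra generated by the classes of the diagonals and the restrictions. -/
noncomputable def RD (W : WeilCohomology.{u, v} ops) (χ : Γ →* W.Kˣ) (𝔇 : Set (NatDer W))
    (i : PY.X ⟶ PX.X) (n : ℕ) (Z : 𝒱.Obj)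
    (υX : Γ →* (W.H ((nest ops n fun _ => PX).X.prod Z) ≃ₐ[W.K]
      W.H ((nest ops n fun _ => PX).X.prod Z))) :
    Subalgebra W.K (W.H ((nest ops n fun _ => PY).X.prod Z)) :=
  Algebra.adjoin W.K ({x | ∃ p q, p ≠ q ∧ dcl W PY n Z p q = x} ∪
    {x | ∃ j c, TD χ 𝔇 υX j c ∧ res W i n Z c = x})

variable {𝔇 : Set (NatDer W)}

theorem om_mem (A : Act W χ i n Z ρ ρ' τ υX υY)
    (bX : ∀ p g x, υX g (fc W PX n Z p x) = fc W PX n Z p (ρ g x)) (s : VB W i)
    {p q : Fin (n + 1)} (hpq : p ≠ q) : om s n Z p q ∈ RD W χ 𝔇 i n Z υX := by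
  have h1 : om s n Z p q = dcl W PY n Z p q - res W i n Z (pitil A.h n Z p q) := by
    rw [dcl_dec A.h s, add_sub_cancel_right]
  rw [h1]
  refine Subalgebra.sub_mem _ (Algebra.subset_adjoin (Or.inl ⟨p, q, hpq, rfl⟩))
    (Algebra.subset_adjoin (Or.inr ⟨PY.X.dim, _, ⟨⟨pitil_gr A.h p q, ⊤, inferInstance,
      fun g _ => pitil_act A.h A.hX A.hY A.hi bX p q g⟩,
      fun D _ => pitil_der D A.h p q⟩, rfl⟩))

/-- the sums over the free positions -/
theorem sum_pf_mem (A : Act W χ i n Z ρ ρ' τ υX υY)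
    (bX : ∀ p g x, υX g (fc W PX n Z p x) = fc W PX n Z p (ρ g x)) (s : VB W i)
    {f : Fin (n + 1) → Option (Fin (2 * PY.X.dim + 1))} {m : ℕ} (e : Fin m × Fin 2 ≃ Free f) :
    ∑ r : Free f → Fin s.N, pf (vform W i) e (fun p => s.u (r p)) • MV s Z r ∈
      RD W χ 𝔇 i n Z υX := by
  obtain ⟨ε, hε⟩ := sum_pattern (K := W.K) (E := Eb s n Z) (dg := Sum.elim (fun _ => 0)
    fun _ => PY.X.dim) (d := PY.X.dim) (fun _ => rfl) (fun p q _ a b => by
      rcases a with a | a <;> rcases b with b | b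
      · simp [Eb]
      · simp [Eb]
      · simp [Eb]
      · exact W.comm (W.map_mem _ (W.map_mem _ (vanishing_le A.h (s.b a).2)))
          (W.map_mem _ (W.map_mem _ (vanishing_le A.h (s.b b).2))))
    e (fun l m => vform W i (s.u l) (s.u m))
  refine Eq.subst (motive := fun x => x ∈ RD W χ 𝔇 i n Z υX) hε.symm ?_
  refine Subalgebra.smul_mem _ (Subalgebra.mul_mem _ ?_ ?_) _
  · refine Subalgebra.list_prod_mem _ ?_
    intro x hx
    rw [List.mem_ofFn] at hx
    obtain ⟨l, rfl⟩ := hx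
    rw [omQ_eq A.h]
    refine Subalgebra.smul_mem _ (om_mem A bX s ?_) _
    intro h1
    have h2 := (Prod.mk.inj (e.injective (Subtype.ext h1))).2
    exact absurd h2 (by decide)
  · refine Subalgebra.list_prod_mem _ ?_
    intro x hx
    rw [List.mem_map] at hx
    obtain ⟨p, -, rfl⟩ := hx
    cases f p with
    | none => exact Subalgebra.one_mem _
    | some κ => exact Subalgebra.one_mem _

/-- **The Tate classes killed by natural derivations on the powers of hyperplane sections.** -/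
theorem mem_RD (A : Act W χ i n Z ρ ρ' τ υX υY)
    (bX : ∀ p g x, υX g (fc W PX n Z p x) = fc W PX n Z p (ρ g x))
    (hirr : IrredAct ρ' (vanishing W i)) {g : Γ}
    (hPL : PLAct (W.tr PY.X) (vanishing W i) ρ' g) (hgX : TrivAct ρ g) (hgZ : TrivAct τ g)
    (hχ : χ g = 1) (hfew : Even PY.X.dim → FewRoots W.K)
    (hn : Even PY.X.dim → n + 1 < Module.finrank W.K (vanishing W i))
    {c : W.H ((nest ops n fun _ => PY).X.prod Z)} {j : ℕ} (hc : TD χ 𝔇 υY j c) :
    c ∈ RD W χ 𝔇 i n Z υX := by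
  obtain ⟨⟨hcj, Δ, hΔ, hcΔ⟩, hcD⟩ := hc
  obtain ⟨s⟩ := exists_VB A.h
  have h1 : c = ∑ f : Fin (n + 1) → Option (Fin (2 * PY.X.dim + 1)),
      ten (fun p => Po A.h (f p)) LinearMap.id c := by
    have h2 := (tenML (Q := PY) (LinearMap.id : W.H Z →ₗ[W.K] W.H Z) c).map_sum
      (fun (_ : Fin (n + 1)) (o : Option (Fin (2 * PY.X.dim + 1))) => Po A.h o)
    rw [tenML_apply] at h2
    have h3 : (fun _ : Fin (n + 1) => ∑ o, Po A.h o) = fun _ => LinearMap.id := by
      funext _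
      exact sum_Po A.h
    rw [h3, ten_id] at h2
    refine h2.trans ?_
    refine Finset.sum_congr rfl fun f _ => ?_
    rw [tenML_apply]
  rw [h1]
  refine Subalgebra.sum_mem _ fun f _ => ?_
  obtain ⟨ε, hε⟩ := rcn A.h s f Z
  obtain ⟨m, κ, _, e, w, hw, hli⟩ := hF_struct A s hirr hPL hgX hgZ hχ hfew hn f hΔ hcΔ
  rw [hε]
  refine Subalgebra.smul_mem _ ?_ _
  have h2 : ∑ r : Free f → Fin s.N, MV s Z r * res W i n Z (hF A.h f c fun p => s.u (r p)) =
      ∑ t, (∑ r : Free f → Fin s.N, pf (vform W i) (e t) (fun p => s.u (r p)) • MV s Z r) *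
        res W i n Z (w t) := by
    have h3 : ∀ r : Free f → Fin s.N, MV s Z r * res W i n Z (hF A.h f c fun p => s.u (r p)) =
        ∑ t, (pf (vform W i) (e t) (fun p => s.u (r p)) • MV s Z r) * res W i n Z (w t) := by
      intro r
      rw [hw, map_sum, Finset.mul_sum]
      refine Finset.sum_congr rfl fun t _ => ?_
      rw [map_smul, mul_smul_comm, smul_mul_assoc]
    rw [Finset.sum_congr rfl fun r _ => h3 r, Finset.sum_comm]
    refine Finset.sum_congr rfl fun t _ => ?_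
    rw [Finset.sum_mul]
  rw [h2]
  refine Subalgebra.sum_mem _ fun t _ => Subalgebra.mul_mem _ (sum_pf_mem A bX s (e t)) ?_
  rcases coef_tate A f hcj hcΔ hw hli t with h3 | ⟨h3, h4, h5⟩
  · rw [h3, map_zero]
    exact Subalgebra.zero_mem _
  · exact Algebra.subset_adjoin (Or.inr ⟨j - PY.X.dim * m, w t, ⟨⟨h4, Δ, hΔ, h5⟩,
      fun D hD => coef_der D A.h f (hcD D hD) hw hli t⟩, rfl⟩)

end Pool.Agent.E8helper53.AH
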