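import Pool.Agent.E8helper53.AH.Abs2
import Pool.Agent.E8helper53.AH.Mem
import Pool.Agent.E8helper53.LP.Fin

/-!
# Absolutely Hodge classes on powers of hyperplane sections
-/

open CategoryTheory AlgebraicGeometry

set_option linter.unusedSectionVars false

universe u w

namespace Pool.Agent.E8helper53.AH

open Pool.Agent.H914 Pool.Agent.H914.VarClass Pool.Agent.H914.VarClass.Obj
  Pool.Agent.H914.WeilCohomology Pool.Agent.H281R3.HT Pool.Agent.W552 Pool.Agent.TH125.Gal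
open Pool.Agent.E8helper53.LP

variable {k : Type u} [Field k] {𝒱 : VarClass k} {ops : CycleOps 𝒱} {T T' : HodgeTheory ops}
  {J : Type} {C : J → Comparison T T'} {Γ : Type w} [Group Γ]
  {χ : Character T.W Γ} {X Y Z : 𝒱.Obj} {i : Y ⟶ X} {ρ : ActOn T.W Γ X} {ρ' : ActOn T.W Γ Y}
  {τ : ActOn T.W Γ Z} {n : ℕ} {υ : ActOn T.W Γ (pwp ops X n Z)} {υ' : ActOn T.W Γ (pwp ops Y n Z)}

/-- **Generation.** -/
theorem hodge_mem (h : PencilMember χ i ρ ρ' τ (n + 1)) (hυ : IsProdAct n ρ τ υ)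
    (hυ' : IsProdAct n ρ' τ υ') {j : ℕ} {c : T.W.H (pwp ops Y n Z)}
    (hc : c ∈ hodge T (pwp ops Y n Z) j) (hct : c ∈ tateSet χ (T.W.gr _) υ' j) :
    c ∈ Algebra.adjoin T.W.K (diagonals T.W Y n Z ∪
      ⋃ j, T.W.map (powerMapProd ops i n Z) '' invHodge T χ υ j) := by
  have h' : NodalSection χ (⟨X, ρ⟩ : GVar T.W Γ) ⟨Y, ρ'⟩ ⟨Z, τ⟩ i (n + 1) := h
  obtain ⟨g, hPL, hgX, hgZ, hχ⟩ := h'.node
  have h1 := mem_RD (𝔇 := ders T) (act_of h' hυ.1 hυ.2 hυ'.1 hυ'.2) (fun p g x => by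
    have h2 := hυ.1 p g x
    rw [T.W.map_comp, T.W.map_comp] at h2
    exact h2) h'.irreducible hPL hgX hgZ hχ (fun h0 => (h'.few h0).1) (fun h0 => (h'.few h0).2)
      ⟨hct, (hodge_iff.1 hc).2⟩
  refine Algebra.adjoin_mono ?_ h1
  refine Set.union_subset_union (fun x hx => hx) ?_
  rintro _ ⟨l, y, ⟨hy, hyD⟩, rfl⟩
  exact Set.mem_iUnion.2 ⟨l, y, ⟨hodge_iff.2 ⟨hy.1, hyD⟩, hy⟩, restr_eq i n Z y⟩

theorem diagonals_mem {x : T.W.H (pwp ops Y n Z)} (hx : x ∈ diagonals T.W Y n Z) :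
    AC C (pwp ops Y n Z) Y.dim x := by
  obtain ⟨p, q, -, rfl⟩ := hx
  exact AC.diag.map _

theorem abs_of_restr (h : PencilMember χ i ρ ρ' τ (n + 1)) (hυ : IsProdAct n ρ τ υ)
    (hυ' : IsProdAct n ρ' τ υ') (hB : ∀ j, hodge T (pwp ops Y n Z) j ⊆ invHodge T χ υ' j)
    (hR : RestrictionsAbs C χ i n υ) : AbsHodge C (pwp ops Y n Z) := by
  intro j c hc
  have h1 := hodge_mem h hυ hυ' hc (hB j hc).2
  have h2 : c ∈ acs C (pwp ops Y n Z) := by
    clear hc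
    induction h1 using Algebra.adjoin_induction with
    | mem x hx =>
      rcases hx with hx | hx
      · exact Submodule.subset_span ⟨_, diagonals_mem hx⟩
      · obtain ⟨l, y, hy, rfl⟩ := Set.mem_iUnion.1 hx
        exact Submodule.subset_span ⟨l, hodge_map _ hy.1, hR l y hy⟩
    | algebraMap r =>
      rw [Algebra.algebraMap_eq_smul_one]
      exact Submodule.smul_mem _ _ (Submodule.subset_span ⟨0, AC.one⟩)
    | add x y _ _ hx hy => exact Submodule.add_mem _ hx hy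
    | mul x y _ _ hx hy => exact acs_mul hx hy
  exact (acs_gr h2 (hodge_iff.1 hc).1).2

theorem main (h : PencilMember χ i ρ ρ' τ (n + 1)) (hυ : IsProdAct n ρ τ υ)
    (hυ' : IsProdAct n ρ' τ υ') (hB : ∀ j, hodge T (pwp ops Y n Z) j ⊆ invHodge T χ υ' j) :
    HodgeGenerated T χ i n υ ∧
    (AbsHodge C (pwp ops Y n Z) ↔ RestrictionsAbs C χ i n υ) ∧
    (AbsHodge C (pwp ops X n Z) → AbsHodge C (pwp ops Y n Z)) := by
  refine ⟨fun j c hc => hodge_mem h hυ hυ' hc (hB j hc).2,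
    ⟨fun hD j x hx => hD j _ (hodge_map _ hx.1), abs_of_restr h hυ hυ' hB⟩,
    fun hA => abs_of_restr h hυ hυ' hB fun j x hx => ?_⟩
  have h1 : AC C (pwp ops X n Z) j x := ⟨hx.1, hA j x hx.1⟩
  exact (h1.map (powerMapProd ops i n Z)).2

end Pool.Agent.E8helper53.AH
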