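import Pool.Agent.H914R2.WBase2

/-!
# Linear forms on the field of coefficients
-/

open TensorProduct

namespace Pool.Agent.E8helper53.AH

open Pool.Agent.H914

variable {K : Type*} [Field K] {A : Type*} [Ring A] [Algebra K A] {B : Type*} [Ring B]
  [Algebra K B] {L : Type*} [Field L] [Algebra K L] (l : L →ₗ[K] K)

/-- the map of the extension of an algebra given by a linear form on the extension of the field -/
noncomputable def phl : L ⊗[K] A →ₗ[K] A :=
  (TensorProduct.lid K A).toLinearMap ∘ₗ l.rTensor A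

theorem phl_tmul (z : L) (a : A) : phl l (z ⊗ₜ[K] a) = l z • a := by
  rw [phl, LinearMap.comp_apply, LinearMap.rTensor_tmul, LinearEquiv.coe_coe,
    TensorProduct.lid_tmul]

theorem phl_mul_right (x : L ⊗[K] A) (b : A) : phl l (x * (1 : L) ⊗ₜ[K] b) = phl l x * b := by
  refine tmul_induction (P := fun x => phl l (x * (1 : L) ⊗ₜ[K] b) = phl l x * b) ?_ ?_ ?_ x
  · rw [zero_mul, map_zero, zero_mul]
  · intro x y hx hy
    rw [add_mul, map_add, hx, hy, map_add, add_mul]
  · intro z a
    rw [Algebra.TensorProduct.tmul_mul_tmul, mul_one, phl_tmul, phl_tmul, smul_mul_assoc]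

theorem phl_mul_left (a : A) (x : L ⊗[K] A) : phl l ((1 : L) ⊗ₜ[K] a * x) = a * phl l x := by
  refine tmul_induction (P := fun x => phl l ((1 : L) ⊗ₜ[K] a * x) = a * phl l x) ?_ ?_ ?_ x
  · rw [mul_zero, map_zero, mul_zero]
  · intro x y hx hy
    rw [mul_add, map_add, hx, hy, map_add, mul_add]
  · intro z b
    rw [Algebra.TensorProduct.tmul_mul_tmul, one_mul, phl_tmul, phl_tmul, mul_smul_comm]

theorem phl_map (f : A →ₐ[K] B) (x : L ⊗[K] A) : phl l (mapBase L f x) = f (phl l x) := by
  refine tmul_induction (P := fun x => phl l (mapBase L f x) = f (phl l x)) ?_ ?_ ?_ x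
  · rw [map_zero, map_zero, map_zero, map_zero]
  · intro x y hx hy
    rw [map_add, map_add, hx, hy, map_add, map_add]
  · intro z b
    rw [Algebra.TensorProduct.map_tmul, phl_tmul, phl_tmul, map_smul]
    rfl

theorem phl_gr {p : Submodule K A} {x : L ⊗[K] A} (hx : x ∈ p.baseChange L) : phl l x ∈ p := by
  refine base_induction (P := fun x => phl l x ∈ p) ?_ ?_ ?_ hx
  · rw [map_zero]
    exact Submodule.zero_mem _
  · intro x y hx hy
    rw [map_add]
    exact Submodule.add_mem _ hx hy
  · intro z a ha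
    rw [phl_tmul]
    exact Submodule.smul_mem _ _ ha

theorem phl_form (t : A →ₗ[K] K) (x : L ⊗[K] A) : t (phl l x) = l (formBase L t x) := by
  refine tmul_induction (P := fun x => t (phl l x) = l (formBase L t x)) ?_ ?_ ?_ x
  · rw [map_zero, map_zero, map_zero, map_zero]
  · intro x y hx hy
    rw [map_add, map_add, hx, hy, map_add, map_add]
  · intro z a
    rw [phl_tmul, formBase_tmul, map_smul, smul_eq_mul, mul_comm z, ← Algebra.smul_def, map_smul,
      smul_eq_mul, mul_comm]

theorem phl_ext {x : L ⊗[K] A} (h : ∀ l : L →ₗ[K] K, phl l x = 0) : x = 0 := by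
  have h1 : TensorProduct.equivFinsuppOfBasisLeft (Module.Free.chooseBasis K L) x = 0 := by
    apply Finsupp.ext
    intro i
    rw [TensorProduct.equivFinsuppOfBasisLeft_apply, Finsupp.zero_apply]
    exact h ((Module.Free.chooseBasis K L).coord i)
  exact (LinearEquiv.map_eq_zero_iff _).1 h1

end Pool.Agent.E8helper53.AH
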