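import Pool.Agent.E8helper53.AH.Pub
import Pool.Agent.E8helper53.AH.Phl
import Pool.Agent.E8helper53.AH.Der
import Pool.Agent.Y121.AH.Gop

/-!
# The derivations given by Hodge decompositions
-/

open CategoryTheory AlgebraicGeometry TensorProduct

set_option linter.unusedSectionVars false

universe u

namespace Pool.Agent.E8helper53.AH

open Module
open Pool.Agent.H914 Pool.Agent.H914.VarClass Pool.Agent.H914.VarClass.Obj
  Pool.Agent.H914.WeilCohomology
open Pool.Agent.Y121.AH (dia dia_apply ind_of_top)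

section Alg

variable {K : Type} [Field K] {A : Type} [Ring A] [Algebra K A] {B : Type} [Ring B] [Algebra K B]
  [Algebra K ℂ] {gr : ℕ → Submodule K A} {tr : A →ₗ[K] K} {h : HTypes K A}
  {gr' : ℕ → Submodule K B} {tr' : B →ₗ[K] K} {h' : HTypes K B}

namespace IsHodgeDec

variable (hd : IsHodgeDec gr tr h) (hg : DirectSum.IsInternal gr)

include hd in
theorem mem_span {i : ℕ} {a : A} (ha : a ∈ gr i) :
    (1 : ℂ) ⊗ₜ[K] a ∈ ⨆ r : {r : ℤ × ℤ // r.1 + r.2 = i}, h r.1.1 r.1.2 := by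
  rw [← hd.span]
  exact Submodule.tmul_mem_baseChange_of_mem _ ha

include hd in
theorem le {p q : ℤ} {i : ℕ} (hi : p + q = i) : h p q ≤ (gr i).baseChange ℂ := by
  rw [hd.span]
  exact le_iSup (fun r : {r : ℤ × ℤ // r.1 + r.2 = i} => h r.1.1 r.1.2) ⟨(p, q), hi⟩

include hd hg in
theorem iSup_top : (⨆ r : ℤ × ℤ, h r.1 r.2) = ⊤ := by
  rw [eq_top_iff]
  intro x _
  refine tmul_induction (P := fun x => x ∈ ⨆ r : ℤ × ℤ, h r.1 r.2) (Submodule.zero_mem _)
    (fun _ _ hx hy => Submodule.add_mem _ hx hy) ?_ x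
  intro l a
  refine gr_induction hg (p := fun a => l ⊗ₜ[K] a ∈ ⨆ r : ℤ × ℤ, h r.1 r.2) ?_ ?_ a
  · intro i a ha
    have h1 : l ⊗ₜ[K] a ∈ (gr i).baseChange ℂ := Submodule.tmul_mem_baseChange_of_mem _ ha
    rw [hd.span] at h1
    refine (iSup_le fun r => ?_ : (⨆ r : {r : ℤ × ℤ // r.1 + r.2 = i}, h r.1.1 r.1.2) ≤ _) h1
    exact le_iSup (fun r : ℤ × ℤ => h r.1 r.2) r.1
  · intro a b ha hb
    rw [tmul_add]
    exact Submodule.add_mem _ ha hb

include hd hg in
theorem isInternal : DirectSum.IsInternal fun r : ℤ × ℤ => h r.1 r.2 :=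
  DirectSum.isInternal_submodule_of_iSupIndep_of_iSup_eq_top hd.indep (hd.iSup_top hg)

include hd hg in
theorem ind {p : ℂ ⊗[K] A → Prop} (hp : ∀ a b : ℤ, ∀ x ∈ h a b, p x)
    (hadd : ∀ a b, p a → p b → p (a + b)) (h0 : p 0) (x : ℂ ⊗[K] A) : p x :=
  ind_of_top (hd.iSup_top hg) (fun r x hx => hp r.1 r.2 x hx) hadd h0 x

end IsHodgeDec

/-- The operator `p - q`. -/
noncomputable def dop (hI : DirectSum.IsInternal fun r : ℤ × ℤ => h r.1 r.2) :
    Module.End ℂ (ℂ ⊗[K] A) :=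
  dia hI fun r => ((r.1 - r.2 : ℤ) : ℂ)

variable (hI : DirectSum.IsInternal fun r : ℤ × ℤ => h r.1 r.2)
  (hI' : DirectSum.IsInternal fun r : ℤ × ℤ => h' r.1 r.2)

theorem dop_pq {p q : ℤ} {x : ℂ ⊗[K] A} (hx : x ∈ h p q) :
    dop hI x = ((p - q : ℤ) : ℂ) • x :=
  dia_apply hI _ (i := (p, q)) hx

variable (hd : IsHodgeDec gr tr h) (hg : DirectSum.IsInternal gr)

include hd hg in
theorem dop_mul (x y : ℂ ⊗[K] A) : dop hI (x * y) = dop hI x * y + x * dop hI y := by
  refine hd.ind hg (p := fun x => dop hI (x * y) = dop hI x * y + x * dop hI y) ?_ ?_ ?_ x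
  · intro a b x hx
    refine hd.ind hg (p := fun y => dop hI (x * y) = dop hI x * y + x * dop hI y) ?_ ?_ ?_ y
    · intro c d y hy
      rw [dop_pq hI hx, dop_pq hI hy, dop_pq hI (hd.mul _ _ _ _ _ hx _ hy), smul_mul_assoc,
        mul_smul_comm, ← add_smul]
      congr 1
      push_cast
      ring
    · intro y z hy hz; rw [mul_add, map_add, hy, hz, map_add, mul_add, mul_add]; abel
    · simp
  · intro x z hx hz; rw [add_mul, map_add, hx, hz, map_add, add_mul, add_mul]; abel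
  · simp

include hd hg in
theorem dop_map {f : A →ₐ[K] B} (hf : MapsTypes f h h') (x : ℂ ⊗[K] A) :
    dop hI' (f.toLinearMap.baseChange ℂ x) = f.toLinearMap.baseChange ℂ (dop hI x) := by
  refine hd.ind hg (p := fun x => dop hI' (f.toLinearMap.baseChange ℂ x) =
    f.toLinearMap.baseChange ℂ (dop hI x)) ?_ ?_ ?_ x
  · intro a b x hx
    rw [dop_pq hI hx, dop_pq hI' (hf _ _ _ hx), map_smul]
  · intro y z hy hz; rw [map_add, map_add, hy, hz, map_add, map_add]
  · simp only [map_zero]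

include hd in
theorem dop_gr {i : ℕ} {a : A} (ha : a ∈ gr i) :
    dop hI ((1 : ℂ) ⊗ₜ[K] a) ∈ (gr i).baseChange ℂ := by
  refine Submodule.iSup_induction (fun r : {r : ℤ × ℤ // r.1 + r.2 = i} => h r.1.1 r.1.2)
    (motive := fun x => dop hI x ∈ (gr i).baseChange ℂ) (hd.mem_span ha) ?_ ?_ ?_
  · intro r x hx
    rw [dop_pq hI hx]
    exact Submodule.smul_mem _ _ (hd.le r.2 hx)
  · rw [map_zero]; exact Submodule.zero_mem _
  · intro x y hx hy; rw [map_add]; exact Submodule.add_mem _ hx hy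

include hd hg in
theorem tr_dop (x : ℂ ⊗[K] A) : tr.baseChange ℂ (dop hI x) = 0 := by
  refine hd.ind hg (p := fun x => tr.baseChange ℂ (dop hI x) = 0) ?_ ?_ ?_ x
  · intro a b x hx
    rw [dop_pq hI hx, map_smul]
    by_cases hab : a = b
    · rw [hab, sub_self, Int.cast_zero, zero_smul]
    · rw [hd.tr a b hab x hx, smul_zero]
  · intro x y hx hy; rw [map_add, map_add, hx, hy, add_zero]
  · rw [map_zero, map_zero]

include hd hg in
/-- A class of even degree killed by the operator is of type `(j, j)`. -/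
theorem pq_of_dop {j : ℕ} {x : ℂ ⊗[K] A}
    (hx : x ∈ ⨆ r : {r : ℤ × ℤ // r.1 + r.2 = (2 * j : ℕ)}, h r.1.1 r.1.2)
    (h0 : dop hI x = 0) : x ∈ h j j := by
  classical
  set N : Module.End ℂ (ℂ ⊗[K] A) := dia hI fun r =>
    if r.1 = r.2 then 0 else (((r.1 - r.2 : ℤ) : ℂ))⁻¹ with hN
  set E : Module.End ℂ (ℂ ⊗[K] A) := dia hI fun r =>
    if r.1 = r.2 then 1 else 0 with hE
  have h1 : ∀ x, N (dop hI x) + E x = x := by
    intro x
    refine hd.ind hg (p := fun x => N (dop hI x) + E x = x) ?_ ?_ ?_ x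
    · intro a b x hx
      rw [dop_pq hI hx, map_smul, hN, hE, dia_apply hI _ (i := (a, b)) hx,
        dia_apply hI _ (i := (a, b)) hx]
      by_cases hab : a = b
      · simp [hab]
      · simp only [if_neg hab, zero_smul, add_zero]
        have h2 : ((a - b : ℤ) : ℂ) ≠ 0 := Int.cast_ne_zero.2 (sub_ne_zero.2 hab)
        rw [smul_smul, mul_inv_cancel₀ h2, one_smul]
    · intro a b ha hb
      calc N (dop hI (a + b)) + E (a + b)
          = (N (dop hI a) + E a) + (N (dop hI b) + E b) := by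
            simp only [map_add]; abel
        _ = a + b := by rw [ha, hb]
    · simp
  have h2 := h1 x
  rw [h0, map_zero, zero_add] at h2
  rw [← h2]
  refine Submodule.iSup_induction
    (fun r : {r : ℤ × ℤ // r.1 + r.2 = (2 * j : ℕ)} => h r.1.1 r.1.2)
    (motive := fun x => E x ∈ h j j) hx ?_ ?_ ?_
  · rintro ⟨⟨a, b⟩, hr⟩ x hx
    rw [hE, dia_apply hI _ (i := (a, b)) hx]
    by_cases hab : a = b
    · subst hab
      have h3 : a = j := by
        have h4 : a + a = ((2 * j : ℕ) : ℤ) := hr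
        push_cast at h4
        omega
      subst h3
      simpa using hx
    · simp [hab]
  · rw [map_zero]; exact Submodule.zero_mem _
  · intro x y hx hy; rw [map_add]; exact Submodule.add_mem _ hx hy

/-- the derivation given by a linear form on the field of complex numbers -/
noncomputable def hdA (l : ℂ →ₗ[K] K) : A →ₗ[K] A :=
  phl l ∘ₗ (dop hI).restrictScalars K ∘ₗ TensorProduct.mk K ℂ A 1

theorem hdA_apply (l : ℂ →ₗ[K] K) (a : A) : hdA hI l a = phl l (dop hI ((1 : ℂ) ⊗ₜ[K] a)) := rfl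

include hd hg in
theorem hdA_mul (l : ℂ →ₗ[K] K) (a b : A) :
    hdA hI l (a * b) = hdA hI l a * b + a * hdA hI l b := by
  have h1 : (1 : ℂ) ⊗ₜ[K] (a * b) = (1 : ℂ) ⊗ₜ[K] a * (1 : ℂ) ⊗ₜ[K] b := by
    rw [Algebra.TensorProduct.tmul_mul_tmul, one_mul]
  rw [hdA_apply, h1, dop_mul hI hd hg, map_add, phl_mul_right, phl_mul_left]
  rfl

theorem phl_base (l : ℂ →ₗ[K] K) (f : A →ₗ[K] B) (x : ℂ ⊗[K] A) :
    phl l (f.baseChange ℂ x) = f (phl l x) := by
  refine tmul_induction (P := fun x => phl l (f.baseChange ℂ x) = f (phl l x)) ?_ ?_ ?_ x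
  · simp only [map_zero]
  · intro x y hx hy; simp only [map_add, hx, hy]
  · intro z a
    rw [LinearMap.baseChange_tmul, phl_tmul, phl_tmul, map_smul]

include hd hg in
theorem hdA_map (l : ℂ →ₗ[K] K) {f : A →ₐ[K] B} (hf : MapsTypes f h h') (a : A) :
    hdA hI' l (f a) = f (hdA hI l a) := by
  have h1 : (1 : ℂ) ⊗ₜ[K] (f a) = f.toLinearMap.baseChange ℂ ((1 : ℂ) ⊗ₜ[K] a) := by
    rw [LinearMap.baseChange_tmul]
    rfl
  rw [hdA_apply, h1, dop_map hI hI' hd hg hf, phl_base]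
  rfl

include hd in
theorem hdA_gr (l : ℂ →ₗ[K] K) {i : ℕ} {a : A} (ha : a ∈ gr i) : hdA hI l a ∈ gr i :=
  phl_gr l (dop_gr hI hd ha)

include hd hg in
theorem hdA_tr (l : ℂ →ₗ[K] K) (a : A) : tr (hdA hI l a) = 0 := by
  have h1 := phl_base l (tr : A →ₗ[K] K) (dop hI ((1 : ℂ) ⊗ₜ[K] a))
  rw [tr_dop hI hd hg, map_zero] at h1
  exact h1.symm

include hd hg in
theorem hodge_iff_hdA {j : ℕ} {c : A} :
    c ∈ hodgeClasses gr h j ↔ c ∈ gr (2 * j) ∧ ∀ l : ℂ →ₗ[K] K, hdA hI l c = 0 := by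
  constructor
  · rintro ⟨h1, h2⟩
    refine ⟨h1, fun l => ?_⟩
    rw [hdA_apply, dop_pq hI h2, sub_self, Int.cast_zero, zero_smul, map_zero]
  · rintro ⟨h1, h2⟩
    exact ⟨h1, pq_of_dop hI hd hg (hd.mem_span h1) (phl_ext h2)⟩

end Alg

variable {k : Type u} [Field k] {𝒱 : VarClass k} {ops : CycleOps 𝒱} (T : HodgeTheory ops)

theorem intn (X : 𝒱.Obj) : DirectSum.IsInternal fun r : ℤ × ℤ => T.h X r.1 r.2 :=
  (T.dec X).isInternal (T.W.isInternal X)

/-- the natural derivation given by a linear form on the field of complex numbers -/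
noncomputable def hder (l : ℂ →ₗ[T.W.K] T.W.K) : NatDer T.W where
  d X := hdA (intn T X) l
  mul X a b := hdA_mul (intn T X) (T.dec X) (T.W.isInternal X) l a b
  map X Y f b := hdA_map (intn T Y) (intn T X) (T.dec Y) (T.W.isInternal Y) l (T.map X Y f) b
  gr X i a ha := hdA_gr (intn T X) (T.dec X) l ha
  tr X a := hdA_tr (intn T X) (T.dec X) (T.W.isInternal X) l a

/-- the set of the derivations given by the Hodge decomposition -/
def ders : Set (NatDer T.W) := Set.range (hder T)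

variable {T}

/-- **The Hodge classes are the classes killed by the derivations.** -/
theorem hodge_iff {X : 𝒱.Obj} {j : ℕ} {c : T.W.H X} :
    c ∈ hodge T X j ↔ c ∈ T.W.gr X (2 * j) ∧ ∀ D ∈ ders T, D.d X c = 0 := by
  rw [hodge, hodge_iff_hdA (intn T X) (T.dec X) (T.W.isInternal X)]
  constructor
  · rintro ⟨h1, h2⟩
    refine ⟨h1, ?_⟩
    rintro _ ⟨l, rfl⟩
    exact h2 l
  · rintro ⟨h1, h2⟩
    exact ⟨h1, fun l => h2 _ ⟨l, rfl⟩⟩

end Pool.Agent.E8helper53.AH
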