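import Pool.Agent.E8helper53.AH.Der

/-!
# Natural derivations and the multilinear maps of classes
-/

open CategoryTheory AlgebraicGeometry Finset Function

set_option linter.unusedSectionVars false

universe u v w

namespace Pool.Agent.E8helper53.AH

open Pool.Agent.H914 Pool.Agent.H914.VarClass Pool.Agent.H914.VarClass.Obj
  Pool.Agent.H914.WeilCohomology Pool.Agent.H281R3.HT Pool.Agent.W552 Pool.Agent.TH125.Gal
open Pool.Agent.E8helper53.LP

section pf

variable {K : Type u} [Field K] {T : Type v} [AddCommGroup T] [Module K T]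
  {S : Type} [Fintype S] [DecidableEq S]

theorem pf_upd (B : T →ₗ[K] T →ₗ[K] K) {m : ℕ} (e : Fin m × Fin 2 ≃ S) (v : S → T) (l : Fin m)
    (j : Fin 2) (x : T) : pf B e (update v (e (l, j)) x) =
      B (update v (e (l, j)) x (e (l, 0))) (update v (e (l, j)) x (e (l, 1))) *
        ∏ l' ∈ univ.erase l, B (v (e (l', 0))) (v (e (l', 1))) := by
  have hne : ∀ l' j', l' ≠ l → update v (e (l, j)) x (e (l', j')) = v (e (l', j')) := by
    intro l' j' hl
    refine update_of_ne ?_ _ _
    intro h
    exact hl (Prod.mk.inj (e.injective h)).1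
  rw [pf, ← Finset.mul_prod_erase _ _ (Finset.mem_univ l)]
  congr 1
  refine Finset.prod_congr rfl fun l' hl' => ?_
  rw [hne l' 0 (Finset.ne_of_mem_erase hl'), hne l' 1 (Finset.ne_of_mem_erase hl')]

/-- products of values of the form and skew operators -/
theorem pf_skew (B : T →ₗ[K] T →ₗ[K] K) {m : ℕ} (e : Fin m × Fin 2 ≃ S) {δ : T → T}
    (hδ : ∀ x y, B (δ x) y = -B x (δ y)) (v : S → T) :
    ∑ s, pf B e (update v s (δ (v s))) = 0 := by
  rw [← Fintype.sum_equiv e (fun a => pf B e (update v (e a) (δ (v (e a))))) _ fun a => rfl,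
    Fintype.sum_prod_type]
  refine Finset.sum_eq_zero fun l _ => ?_
  rw [Fin.sum_univ_two, pf_upd, pf_upd, update_self, update_self,
    update_of_ne (a := e (l, 1)) (a' := e (l, 0)), update_of_ne (a := e (l, 0)) (a' := e (l, 1)),
    hδ, neg_mul, neg_add_cancel]
  · intro h
    exact absurd (Prod.mk.inj (e.injective h)).2 (by decide)
  · intro h
    exact absurd (Prod.mk.inj (e.injective h)).2 (by decide)

end pf

variable {k : Type u} [Field k] {𝒱 : VarClass k} {ops : CycleOps 𝒱}
  {W : WeilCohomology.{u, v} ops} {PX PY : Polarized 𝒱} {i : PY.X ⟶ PX.X}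

/-- the derivation on the vanishing cohomology -/
noncomputable def dV (D : NatDer W) (i : PY.X ⟶ PX.X) : vanishing W i →ₗ[W.K] vanishing W i :=
  (D.d PY.X).restrict fun _ hv => D.vanishing hv

theorem dV_apply (D : NatDer W) (v : vanishing W i) : (dV D i v : W.H PY.X) = D.d PY.X v := rfl

theorem dV_skew (D : NatDer W) (x y : vanishing W i) :
    vform W i (dV D i x) y = -vform W i x (dV D i y) := D.bil_skew _ _

variable (D : NatDer W) (h : IsHyperplaneSection W i) {n : ℕ} {Z : 𝒱.Obj}

theorem cm_none {f : Fin (n + 1) → Option (Fin (2 * PY.X.dim + 1))}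
    (v : Free f → vanishing W i) {p : Fin (n + 1)} (hp : f p = none) :
    cm D (Lo h f v p) = Lo h f (update v ⟨p, hp⟩ (dV D i (v ⟨p, hp⟩))) p := by
  apply LinearMap.ext
  intro a
  rw [cm_apply, Lo_none h _ hp, Lo_none h _ hp, bw_apply, bw_apply, bw_apply, map_smul, D.one,
    smul_zero, zero_sub, update_self, dV_apply, D.bil_skew, neg_smul]

theorem cm_some {f : Fin (n + 1) → Option (Fin (2 * PY.X.dim + 1))}
    (v : Free f → vanishing W i) {p : Fin (n + 1)} (hp : ¬ f p = none) :
    cm D (Lo h f v p) = 0 := by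
  obtain ⟨κ, hκ⟩ := Option.ne_none_iff_exists'.1 hp
  apply LinearMap.ext
  intro a
  rw [cm_apply, Lo_some h _ hκ, LinearMap.comp_apply, LinearMap.comp_apply, D.proj, D.lft,
    sub_self, LinearMap.zero_apply]

theorem Lo_update {f : Fin (n + 1) → Option (Fin (2 * PY.X.dim + 1))}
    (v : Free f → vanishing W i) (p : Free f) (x : vanishing W i) :
    update (Lo h f v) p.1 (Lo h f (update v p x) p.1) = Lo h f (update v p x) := by
  funext q
  by_cases hq : q = p.1
  · subst hq
    rw [update_self]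
  · rw [update_of_ne hq]
    by_cases hf : f q = none
    · rw [Lo_none h _ hf, Lo_none h _ hf, update_of_ne]
      intro h'
      exact hq (congrArg Subtype.val h')
    · obtain ⟨κ, hκ⟩ := Option.ne_none_iff_exists'.1 hf
      rw [Lo_some h _ hκ, Lo_some h _ hκ]

/-- **The derivation of the multilinear map of a class.** -/
theorem hF_der (f : Fin (n + 1) → Option (Fin (2 * PY.X.dim + 1)))
    (c : W.H ((nest ops n fun _ => PY).X.prod Z)) (v : Free f → vanishing W i) :
    D.d _ (hF h f c v) = hF h f (D.d _ c) v +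
      ∑ p, hF h f c (update v p (dV D i (v p))) := by
  rw [hF_apply, hF_apply, ten_der D (Lo h f v) (LinearMap.id : W.H Z →ₗ[W.K] W.H Z)
    (fun z => rfl) c]
  congr 1
  rw [← Fintype.sum_subtype_add_sum_subtype (fun p => f p = none)]
  have h1 : ∑ p : {p // ¬ f p = none}, ten (update (Lo h f v) p (cm D (Lo h f v p)))
      (LinearMap.id : W.H Z →ₗ[W.K] W.H Z) c = 0 := by
    refine Finset.sum_eq_zero fun p _ => ?_
    rw [cm_some D h v p.2, ← tenML_apply, MultilinearMap.map_update_zero]
  rw [h1, add_zero]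
  refine Finset.sum_congr rfl fun p _ => ?_
  rw [hF_apply, cm_none D h v p.2]
  exact congrArg (fun L => ten L _ c) (Lo_update h v p _)

/-- **The derivations of the coefficients.** -/
theorem coef_der (f : Fin (n + 1) → Option (Fin (2 * PY.X.dim + 1)))
    {c : W.H ((nest ops n fun _ => PY).X.prod Z)} (hc : D.d _ c = 0) {m : ℕ} {κ : Type}
    [Fintype κ] {e : κ → (Fin m × Fin 2 ≃ Free f)}
    {w : κ → W.H ((nest ops n fun _ => PX).X.prod Z)}
    (hw : ∀ v, hF h f c v = ∑ t, pf (vform W i) (e t) v • w t)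
    (hli : LinearIndependent W.K fun t => pf (vform W i) (e t)) (t : κ) : D.d _ (w t) = 0 := by
  refine coef_eq hli (w := fun t => D.d _ (w t)) (fun v => ?_) t
  have h1 : ∑ t, pf (vform W i) (e t) v • D.d _ (w t) = D.d _ (hF h f c v) := by
    rw [hw, map_sum]
    exact Finset.sum_congr rfl fun t _ => (map_smul _ _ _).symm
  have h2 : hF h f (D.d _ c) v = 0 := by
    rw [hc, hF_apply, map_zero]
  rw [h1, hF_der, h2, zero_add]
  have h3 : ∀ p : Free f, hF h f c (update v p (dV D i (v p))) =
      ∑ t, pf (vform W i) (e t) (update v p (dV D i (v p))) • w t := fun p => hw _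
  rw [Finset.sum_congr rfl fun p _ => h3 p, Finset.sum_comm]
  refine Finset.sum_eq_zero fun t _ => ?_
  rw [← Finset.sum_smul, pf_skew (vform W i) (e t) (dV_skew D) v, zero_smul]

theorem fc_der (P : Polarized 𝒱) (p : Fin (n + 1)) (x : W.H P.X) :
    D.d _ (fc W P n Z p x) = fc W P n Z p (D.d _ x) := by
  rw [fc_apply, fc_apply, D.map, D.map]

/-- the derivation of the non-vanishing part of the diagonal -/
theorem pitil_der (p q : Fin (n + 1)) : D.d _ (pitil h n Z p q) = 0 := by
  have h1 := dual_adj (B := bil W PY.X) (b := hE W PY.X) (u := es W PY.X) es_hE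
    ((fc2 W PX n Z p q).compl₁₂ (lft h) (lft h)) (A := D.d PY.X) (A' := -D.d PY.X)
    (fun x y => by
      rw [LinearMap.neg_apply, map_neg, LinearMap.neg_apply, D.bil_skew, neg_neg])
  rw [pitil, map_sum]
  have h2 : ∀ j, D.d _ (fc2 W PX n Z p q (lft h (hE W PY.X j)) (lft h (es W PY.X j))) =
      (fc2 W PX n Z p q).compl₁₂ (lft h) (lft h) (D.d PY.X (hE W PY.X j)) (es W PY.X j) -
      (fc2 W PX n Z p q).compl₁₂ (lft h) (lft h) (hE W PY.X j)
        ((-D.d PY.X) (es W PY.X j)) := by
    intro j
    rw [LinearMap.neg_apply, map_neg, sub_neg_eq_add, LinearMap.compl₁₂_apply,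
      LinearMap.compl₁₂_apply, fc2_apply, fc2_apply, fc2_apply, D.mul, fc_der, fc_der, D.lft,
      D.lft]
  rw [Finset.sum_congr rfl fun j _ => h2 j, Finset.sum_sub_distrib, h1, sub_self]

end Pool.Agent.E8helper53.AH
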