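import Pool.Agent.E8helper53.LP.Defs

/-!
# Hodge theories, comparison isomorphisms and hyperplane sections: definitions

In the intended use the varieties are the smooth projective complex varieties, `T` is
`X ↦ H(X, ℚ)`, and `T'` is `X ↦ H(X^σ, ℚ)` for an automorphism `σ` of the field of complex numbers.
-/

open CategoryTheory AlgebraicGeometry TensorProduct

universe u w

namespace Pool.Agent.E8helper53.AH

open Pool.Agent.H914 Pool.Agent.H914.VarClass Pool.Agent.H914.VarClass.Obj
  Pool.Agent.TH125.Gal Pool.Agent.E8helper53.LP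

section Alg

variable {K : Type} [Field K] {A : Type} [Ring A] [Algebra K A] {B : Type} [Ring B] [Algebra K B]
  {D : Type} [Ring D] [Algebra K D]

variable (K A) in
/-- Subspaces `h p q`, for integers `p` and `q`, of `A` with coefficients extended to the complex
numbers. -/
abbrev HTypes [Algebra K ℂ] := ℤ → ℤ → Submodule ℂ (ℂ ⊗[K] A)

/-- The spaces `h p q` are the Hodge decomposition of the cohomology algebra `A` with the grading `gr`
and the orientation `tr`: their sum is direct, `gr i` is the sum of the `h p q` with `p + q = i`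
(after the extension of the coefficients), they are compatible with products, and `tr` vanishes on
`h p q` if `p ≠ q`. -/
structure IsHodgeDec [Algebra K ℂ] (gr : ℕ → Submodule K A) (tr : A →ₗ[K] K) (h : HTypes K A) :
    Prop where
  indep : iSupIndep fun r : ℤ × ℤ => h r.1 r.2
  span : ∀ i : ℕ, (gr i).baseChange ℂ = ⨆ r : {r : ℤ × ℤ // r.1 + r.2 = i}, h r.1.1 r.1.2
  mul : ∀ p q r s, ∀ x ∈ h p q, ∀ y ∈ h r s, x * y ∈ h (p + r) (q + s)
  tr : ∀ p q, p ≠ q → ∀ x ∈ h p q, tr.baseChange ℂ x = 0

/-- The homomorphism `f` maps `h p q` to `h' p q`. -/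
def MapsTypes [Algebra K ℂ] (f : A →ₐ[K] B) (h : HTypes K A) (h' : HTypes K B) : Prop :=
  ∀ p q, ∀ x ∈ h p q, f.toLinearMap.baseChange ℂ x ∈ h' p q

/-- The Hodge classes of degree `2 j`. -/
def hodgeClasses [Algebra K ℂ] (gr : ℕ → Submodule K A) (h : HTypes K A) (j : ℕ) : Set A :=
  {c | c ∈ gr (2 * j) ∧ (1 : ℂ) ⊗ₜ[K] c ∈ h j j}

/-- The images of `g 1` under the homomorphisms `f p q` with `p ≠ q`. -/
def imagesOfOne {I : Type} (f : I → I → (A →ₐ[K] B)) (g : D →ₗ[K] A) : Set B :=
  {x | ∃ p q, p ≠ q ∧ f p q (g 1) = x}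

/-- The images under `f` of the elements of `S j` have the property `P j`. -/
def MapsInto (f : A →ₐ[K] B) (S : ℕ → Set A) (P : ℕ → B → Prop) : Prop := ∀ j, ∀ a ∈ S j, P j (f a)

variable {K' : Type} [Field K'] {A' : Type} [Ring A'] [Algebra K' A'] {B' : Type} [Ring B']
  [Algebra K' B'] {L : Type} [Field L] [Algebra K L] [Algebra K' L]

variable (K A K' A' L) in
/-- Isomorphisms of rings between `A` and `A'` with coefficients extended to `L`. -/
abbrev Iso := L ⊗[K] A ≃+* L ⊗[K'] A'

/-- The isomorphism `e` is semilinear, respects the gradings, and the orientations up to `c ^ n`. -/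
structure IsComparison (s : L ≃+* L) (c : L) (gr : ℕ → Submodule K A) (gr' : ℕ → Submodule K' A')
    (tr : A →ₗ[K] K) (tr' : A' →ₗ[K'] K') (n : ℕ) (e : Iso K A K' A' L) : Prop where
  semi : ∀ l x, e (l • x) = s l • e x
  gr : ∀ i, ∀ a ∈ gr i, e (1 ⊗ₜ a) ∈ (gr' i).baseChange L
  tr : ∀ a, tr'.baseChange L (e (1 ⊗ₜ a)) = (c ^ n * algebraMap K L (tr a)) ⊗ₜ 1

/-- The isomorphisms commute with the homomorphisms `f` and `f'`. -/
def Commutes (e : Iso K A K' A' L) (e' : Iso K B K' B' L) (f : B →ₐ[K] A) (f' : B' →ₐ[K'] A') :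
    Prop :=
  ∀ b, e (1 ⊗ₜ f b) = f'.toLinearMap.baseChange L (e' (1 ⊗ₜ b))

/-- The elements `a` and `a'` of degree `2 j` correspond to each other (`c` is the effect of the
isomorphism `e` on the Tate twist). -/
def Corresponds (c : L) (e : Iso K A K' A' L) (j : ℕ) (a : A) (a' : A') : Prop :=
  e (1 ⊗ₜ a) = c ^ j • (1 : L) ⊗ₜ[K'] a'

end Alg

variable {k : Type u} [Field k] {𝒱 : VarClass k} {ops : CycleOps 𝒱}

/-- A Hodge theory: a Weil cohomology theory with rational coefficients and functorial Hodge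
decompositions. -/
structure HodgeTheory (ops : CycleOps 𝒱) where
  /-- the cohomology with rational coefficients -/
  W : WeilCohomology.{u, 0} ops
  rat : ∀ r : W.K, ∃ q : ℚ, (q : W.K) = r
  [alg : Algebra W.K ℂ]
  /-- the spaces `H^(p,q)(X)` -/
  h : ∀ X : 𝒱.Obj, HTypes W.K (W.H X)
  dec : ∀ X, IsHodgeDec (W.gr X) (W.tr X) (h X)
  map : ∀ X Y (f : X ⟶ Y), MapsTypes (W.map f) (h Y) (h X)

attribute [instance] HodgeTheory.alg

/-- The Hodge classes of degree `2 j`. -/
def hodge (T : HodgeTheory ops) (X : 𝒱.Obj) (j : ℕ) : Set (T.W.H X) :=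
  hodgeClasses (T.W.gr X) (T.h X) j

/-- A comparison isomorphism between two Hodge theories, with coefficients in a field `L` (which
is `ℂ` for de Rham cohomology and `ℚ_ℓ` for `ℓ`-adic cohomology): semilinear isomorphisms of the
cohomology rings which respect the degrees, the orientations and pull-backs; `c` describes the effect
on the Tate twist. -/
structure Comparison (T T' : HodgeTheory ops) where
  /-- the coefficients -/
  L : Type
  [field : Field L]
  [alg : Algebra T.W.K L]
  [alg' : Algebra T'.W.K L]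
  /-- the automorphism of the coefficients -/
  s : L ≃+* L
  /-- the effect on the Tate twist -/
  c : L
  ne : c ≠ 0
  /-- the isomorphisms -/
  e : ∀ X : 𝒱.Obj, Iso T.W.K (T.W.H X) T'.W.K (T'.W.H X) L
  cmp : ∀ X, IsComparison s c (T.W.gr X) (T'.W.gr X) (T.W.tr X) (T'.W.tr X) X.dim (e X)
  nat : ∀ X Y (f : X ⟶ Y), Commutes (e X) (e Y) (T.W.map f) (T'.W.map f)

attribute [instance] Comparison.field Comparison.alg Comparison.alg'

variable {T T' : HodgeTheory ops}

/-- The class `x` of degree `2 j` corresponds to a Hodge class for the theory `T'` (the same for all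
comparison isomorphisms). -/
def IsAbs {J : Type} (C : J → Comparison T T') (X : 𝒱.Obj) (j : ℕ) (x : T.W.H X) : Prop :=
  ∃ x' ∈ hodge T' X j, ∀ a, Corresponds (C a).c ((C a).e X) j x x'

/-- The absolute Hodge conjecture for `X` and `T'`: all Hodge classes on `X` correspond to Hodge
classes for the theory `T'`. -/
def AbsHodge {J : Type} (C : J → Comparison T T') (X : 𝒱.Obj) : Prop :=
  ∀ j, ∀ x ∈ hodge T X j, IsAbs C X j x

/-- The characters of the group `Γ` with values in the coefficient field. -/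
abbrev Character (W : WeilCohomology.{u, 0} ops) (Γ : Type w) [Group Γ] : Type w := Γ →* W.Kˣ

variable {W : WeilCohomology.{u, 0} ops} {Γ : Type w} [Group Γ]

/-- `i : Y ⟶ X` is a smooth hyperplane section of `X` with irreducible vanishing cohomology and a
Picard-Lefschetz operator, for the actions `ρ`, `ρ'` and `τ` on the cohomology of `X`, `Y` and
`Z`; if the dimension of `Y` is even, the dimension of the vanishing cohomology is greater
than `m`. -/
def PencilMember (χ : Character W Γ) {X Y Z : 𝒱.Obj} (i : Y ⟶ X) (ρ : ActOn W Γ X)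
    (ρ' : ActOn W Γ Y) (τ : ActOn W Γ Z) (m : ℕ) : Prop :=
  IsNodal χ (W.gr X) (W.gr Y) X.dim Y.dim (W.tr X) (W.tr Y) (W.map i) (W.push i) ρ ρ' τ m

/-- The product of `n + 1` copies of `X` and of `Z`. -/
noncomputable abbrev pwp (ops : CycleOps 𝒱) (X : 𝒱.Obj) (n : ℕ) (Z : 𝒱.Obj) : 𝒱.Obj :=
  (power ops X n).prod Z

/-- The projections to the copies of `X`. -/
noncomputable abbrev prjX (ops : CycleOps 𝒱) (X : 𝒱.Obj) (n : ℕ) (Z : 𝒱.Obj) (p : Fin (n + 1)) :
    pwp ops X n Z ⟶ X :=
  fst (power ops X n) Z ≫ powerPrj ops X n p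

/-- The projections to pairs of copies of `X`. -/
noncomputable abbrev prjXX (ops : CycleOps 𝒱) (X : 𝒱.Obj) (n : ℕ) (Z : 𝒱.Obj)
    (p q : Fin (n + 1)) : pwp ops X n Z ⟶ X.prod X :=
  Obj.lift (prjX ops X n Z p) (prjX ops X n Z q)

/-- The action `υ` on the cohomology of the product of copies of `X` and of `Z` is compatible with
the projections to the factors. -/
def IsProdAct {X Z : 𝒱.Obj} (n : ℕ) (ρ : ActOn W Γ X) (τ : ActOn W Γ Z)
    (υ : ActOn W Γ (pwp ops X n Z)) : Prop :=
  IsJointAct (fun p => W.map (prjX ops X n Z p)) (W.map (snd (power ops X n) Z)) ρ τ υ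

/-- The classes of the diagonals of pairs of different factors `Y`. -/
def diags (W : WeilCohomology.{u, 0} ops) (Y : 𝒱.Obj) (n : ℕ) (Z : 𝒱.Obj) :
    Set (W.H (pwp ops Y n Z)) :=
  imagesOfOne (fun p q => W.map (prjXX ops Y n Z p q)) (W.push (diag Y))

/-- The Hodge classes of degree `2 j` which are multiplied by `χ g ^ j` by all `g` in a subgroup of
finite index. -/
def invHodge (T : HodgeTheory ops) (χ : Character T.W Γ) {V : 𝒱.Obj} (υ : ActOn T.W Γ V) (j : ℕ) :
    Set (T.W.H V) :=
  hodge T V j ∩ tateSet χ (T.W.gr V) υ j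

/-- All Hodge classes on the product of `n + 1` copies of `Y` and of `Z` are in the algebra generated
by the classes of the diagonals of pairs of factors `Y` and the restrictions of the classes in
`invHodge T χ υ` on the product of copies of `X` and of `Z`. -/
def HodgeGenerated (T : HodgeTheory ops) (χ : Character T.W Γ) {X Y Z : 𝒱.Obj} (i : Y ⟶ X) (n : ℕ)
    (υ : ActOn T.W Γ (pwp ops X n Z)) : Prop :=
  GeneratedBy (T.W.map (powerMapProd ops i n Z)) (invHodge T χ υ) (diags T.W Y n Z)
    (hodge T (pwp ops Y n Z))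

/-- The restrictions of the classes in `invHodge T χ υ` on the product of `n + 1` copies of `X` and of
`Z` to the product of copies of `Y` and of `Z` are absolutely Hodge. -/
def RestrictionsAbs {J : Type} (C : J → Comparison T T') (χ : Character T.W Γ) {X Y Z : 𝒱.Obj}
    (i : Y ⟶ X) (n : ℕ) (υ : ActOn T.W Γ (pwp ops X n Z)) : Prop :=
  MapsInto (T.W.map (powerMapProd ops i n Z)) (invHodge T χ υ) (IsAbs C (pwp ops Y n Z))

end Pool.Agent.E8helper53.AH
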